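import Mathlib

/-!
# Smoothed subspace monomial matrices: the dimension condition alone does not suffice

For every degree `d ≥ 2` and every `0 < δ < 1 - 2 ^ (1 - d)` there are, for all large `n`, a
subspace dimension `t` and `s = 2` blocks satisfying the dimension condition
`s * binom (t + d - 1) d ≤ (1 - δ) * binom (n + d - 1) d`, such that the matrix `M` of the
problem has smallest singular value `0` surely, whatever the two subspaces, the size `ρ` of the
perturbation and the outcome of the Gaussian perturbations are.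
-/

set_option autoImplicit false

namespace Pool.Agent.Results.MP_21e226_pr.SubspaceIntersection

open MeasureTheory ProbabilityTheory Filter Topology

/-- The exponents of the monomials of degree `d` in `n` variables. -/
abbrev Mon (n d : ℕ) : Type := {α : Fin n → Fin (d + 1) // ∑ i, (α i : ℕ) = d}

/-- The exponent as a finitely supported function. -/
noncomputable def expo {n d : ℕ} (α : Mon n d) : Fin n →₀ ℕ :=
  Finsupp.equivFunOnFinite.symm (fun i => (α.1 i : ℕ))

/-- The linear form `x ↦ ⟨v, x⟩`. -/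
noncomputable def linForm {n : ℕ} (v : EuclideanSpace ℝ (Fin n)) : MvPolynomial (Fin n) ℝ :=
  ∑ k, MvPolynomial.C (v k) * MvPolynomial.X k

/-- The matrix `M`: its rows are indexed by the monomials of degree `d` in `n` variables, its
columns by a block `i` and a monomial `α` of degree `d` in `t` variables, and the column `(i, α)`
is the coefficient vector of the product of the powers `⟨v i j, x⟩ ^ (α j)`, `j < t`. -/
noncomputable def monMatrix (n t s d : ℕ) (v : Fin s → Fin t → EuclideanSpace ℝ (Fin n)) :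
    Matrix (Mon n d) (Fin s × Mon t d) ℝ :=
  fun m c => MvPolynomial.coeff (expo m) (∏ j, linForm (v c.1 j) ^ (c.2.1 j : ℕ))

/-- The least value of `‖M c‖` over the unit vectors `c`: this is the smallest singular value of
`M`, i.e. its `N`-th largest one, `N` the number of columns (at most the number of rows). -/
noncomputable def sigmaMin {ι κ : Type} [Fintype ι] [Fintype κ] (M : Matrix ι κ ℝ) : ℝ :=
  sInf {r : ℝ | ∃ c : κ → ℝ, ∑ j, c j ^ 2 = 1 ∧ r = Real.sqrt (∑ i, (M.mulVec c) i ^ 2)}

/-- The law of `s` independent `n × t` matrices with independent centred Gaussian entries of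
variance `ρ ^ 2 / n`. -/
noncomputable def noise (n t s : ℕ) (ρ : ℝ) : Measure (Fin s → Fin n → Fin t → ℝ) :=
  Measure.pi fun _ => Measure.pi fun _ => Measure.pi fun _ =>
    gaussianReal 0 (Real.toNNReal (ρ ^ 2 / n))

theorem sigmaMin_eq_zero {ι κ : Type} [Fintype ι] [Fintype κ] (M : Matrix ι κ ℝ) (c : κ → ℝ)
    (hc : c ≠ 0) (hM : M.mulVec c = 0) : sigmaMin M = 0 := by
  have hpos : 0 < ∑ j, c j ^ 2 := by
    obtain ⟨j, hj⟩ := Function.ne_iff.mp hc
    exact Finset.sum_pos' (fun _ _ => sq_nonneg _) ⟨j, Finset.mem_univ _, by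
      have : c j ≠ 0 := hj
      positivity⟩
  apply le_antisymm
  · apply csInf_le
    · refine ⟨0, ?_⟩
      rintro r ⟨c', -, rfl⟩
      exact Real.sqrt_nonneg _
    · refine ⟨(Real.sqrt (∑ j, c j ^ 2))⁻¹ • c, ?_, ?_⟩
      · simp only [Pi.smul_apply, smul_eq_mul, mul_pow, ← Finset.mul_sum, inv_pow]
        rw [Real.sq_sqrt hpos.le, inv_mul_cancel₀ hpos.ne']
      · rw [Matrix.mulVec_smul, hM]
        simp
  · apply Real.sInf_nonneg
    rintro r ⟨c', -, rfl⟩
    exact Real.sqrt_nonneg _

/-- The index of a monomial of degree `d`. -/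
theorem exists_mon {t d : ℕ} (m : Fin t →₀ ℕ) (hm : ∑ i, m i = d) : ∃ α : Mon t d, expo α = m := by
  refine ⟨⟨fun i => ⟨m i, ?_⟩, ?_⟩, ?_⟩
  · have : m i ≤ ∑ i, m i := Finset.single_le_sum (fun _ _ => Nat.zero_le _) (Finset.mem_univ i)
    omega
  · simpa using hm
  · ext i
    simp [expo]

theorem expo_injective {t d : ℕ} : Function.Injective (expo : Mon t d → (Fin t →₀ ℕ)) := by
  intro α β h
  apply Subtype.ext
  funext i
  apply Fin.ext
  have := DFunLike.congr_fun h i
  simpa [expo] using this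

theorem homog_sum {t d : ℕ} (p : MvPolynomial (Fin t) ℝ) (hp : p.IsHomogeneous d) :
    p = ∑ α : Mon t d, MvPolynomial.monomial (expo α) (MvPolynomial.coeff (expo α) p) := by
  classical
  ext m
  rw [MvPolynomial.coeff_sum]
  simp only [MvPolynomial.coeff_monomial]
  by_cases hm : ∑ i, m i = d
  · obtain ⟨α, rfl⟩ := exists_mon m hm
    rw [Finset.sum_eq_single α]
    · simp
    · intro β _ hβ
      rw [if_neg (fun h => hβ (expo_injective h))]
    · intro h
      exact absurd (Finset.mem_univ _) h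
  · have h0 : MvPolynomial.coeff m p = 0 := by
      apply hp.coeff_eq_zero
      rw [Finsupp.degree_eq_sum]
      exact hm
    rw [h0, Finset.sum_eq_zero]
    intro α _
    rw [if_neg]
    rintro rfl
    apply hm
    have := α.2
    simpa [expo] using this

/-- The power of a linear form in the span of a block is a combination of the columns. -/
theorem pow_eq_sum {n t d : ℕ} (v : Fin t → EuclideanSpace ℝ (Fin n)) (a : Fin t → ℝ)
    (ha : a ≠ 0) :
    ∃ c : Mon t d → ℝ, c ≠ 0 ∧
      (linForm (∑ j, a j • v j)) ^ d = ∑ α, MvPolynomial.C (c α) *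
        ∏ j, linForm (v j) ^ (α.1 j : ℕ) := by
  classical
  set q : MvPolynomial (Fin t) ℝ := ∑ j, MvPolynomial.C (a j) * MvPolynomial.X j with hq
  have hqh : (q ^ d).IsHomogeneous d := by
    have h1 : q.IsHomogeneous 1 := by
      apply MvPolynomial.IsHomogeneous.sum
      intro j _
      have := (MvPolynomial.isHomogeneous_C (σ := Fin t) (a j)).mul
        (MvPolynomial.isHomogeneous_X (R := ℝ) (σ := Fin t) j)
      simpa using this
    simpa using h1.pow d
  have hq0 : q ≠ 0 := by
    obtain ⟨j, hj⟩ := Function.ne_iff.mp ha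
    intro h0
    apply hj
    have := congrArg (MvPolynomial.coeff (Finsupp.single j 1)) h0
    rw [hq, MvPolynomial.coeff_sum] at this
    simp only [MvPolynomial.coeff_C_mul, MvPolynomial.coeff_X, MvPolynomial.coeff_zero] at this
    rw [Finset.sum_eq_single j] at this
    · simpa using this
    · intro i _ hi
      rw [if_neg, mul_zero]
      intro h
      exact hi (Finsupp.single_left_injective one_ne_zero h)
    · intro h
      exact absurd (Finset.mem_univ _) h
  refine ⟨fun α => MvPolynomial.coeff (expo α) (q ^ d), ?_, ?_⟩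
  · intro h0
    apply pow_ne_zero d hq0
    rw [homog_sum _ hqh]
    apply Finset.sum_eq_zero
    intro α _
    have := congrFun h0 α
    simp only [Pi.zero_apply] at this
    rw [this, map_zero]
  · have h1 : MvPolynomial.aeval (fun j => linForm (v j)) q = linForm (∑ j, a j • v j) := by
      rw [hq, map_sum]
      simp only [map_mul, MvPolynomial.aeval_X, MvPolynomial.aeval_C, linForm]
      simp only [MvPolynomial.algebraMap_eq, Finset.mul_sum, ← mul_assoc, ← MvPolynomial.C_mul]
      rw [Finset.sum_comm]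
      apply Finset.sum_congr rfl
      intro k _
      rw [← Finset.sum_mul, ← map_sum]
      simp
    rw [← h1, ← map_pow]
    conv_lhs => rw [homog_sum _ hqh]
    rw [map_sum]
    apply Finset.sum_congr rfl
    intro α _
    rw [MvPolynomial.aeval_monomial, MvPolynomial.algebraMap_eq]
    congr 1
    rw [Finsupp.prod_fintype _ _ (fun i => by simp)]
    simp [expo]

theorem exists_common {n t : ℕ} (h : n < 2 * t) (v w : Fin t → EuclideanSpace ℝ (Fin n))
    (hv : LinearIndependent ℝ v) (hw : LinearIndependent ℝ w) :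
    ∃ a b : Fin t → ℝ, a ≠ 0 ∧ b ≠ 0 ∧ ∑ j, a j • v j = ∑ j, b j • w j := by
  classical
  set U := Submodule.span ℝ (Set.range v)
  set W := Submodule.span ℝ (Set.range w)
  have hU : Module.finrank ℝ U = t := by
    rw [finrank_span_eq_card hv, Fintype.card_fin]
  have hW : Module.finrank ℝ W = t := by
    rw [finrank_span_eq_card hw, Fintype.card_fin]
  have hsum := Submodule.finrank_sup_add_finrank_inf_eq U W
  have hle : Module.finrank ℝ (U ⊔ W : Submodule ℝ (EuclideanSpace ℝ (Fin n))) ≤ n := by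
    have := Submodule.finrank_le (U ⊔ W)
    simpa using this
  have hpos : 0 < Module.finrank ℝ (U ⊓ W : Submodule ℝ (EuclideanSpace ℝ (Fin n))) := by omega
  obtain ⟨⟨x, hx⟩, hx0⟩ := (Module.finrank_pos_iff_exists_ne_zero (R := ℝ)).mp hpos
  have hx0' : x ≠ 0 := fun h => hx0 (Subtype.ext h)
  obtain ⟨a, ha⟩ := (Submodule.mem_span_range_iff_exists_fun ℝ).mp hx.1
  obtain ⟨b, hb⟩ := (Submodule.mem_span_range_iff_exists_fun ℝ).mp hx.2
  refine ⟨a, b, ?_, ?_, ha.trans hb.symm⟩
  · rintro rfl
    apply hx0'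
    rw [← ha]
    simp
  · rintro rfl
    apply hx0'
    rw [← hb]
    simp

/-- Two blocks whose spans meet give a kernel vector. -/
theorem monMatrix_two {n t d : ℕ} (h : n < 2 * t)
    (v : Fin 2 → Fin t → EuclideanSpace ℝ (Fin n)) (hv : ∀ i, LinearIndependent ℝ (v i)) :
    sigmaMin (monMatrix n t 2 d v) = 0 := by
  classical
  obtain ⟨a, b, ha, hb, hab⟩ := exists_common h (v 0) (v 1) (hv 0) (hv 1)
  obtain ⟨c, hc, hc'⟩ := pow_eq_sum (d := d) (v 0) a ha
  obtain ⟨e, he, he'⟩ := pow_eq_sum (d := d) (v 1) b hb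
  apply sigmaMin_eq_zero _ (fun x => if x.1 = 0 then c x.2 else - e x.2)
  · intro h0
    apply hc
    funext α
    have := congrFun h0 (0, α)
    simpa using this
  · funext m
    simp only [Matrix.mulVec, dotProduct, Pi.zero_apply, monMatrix]
    rw [Fintype.sum_prod_type, Fin.sum_univ_two]
    simp only [if_true, Fin.one_eq_zero_iff, if_false, OfNat.ofNat_ne_one]
    have h1 := congrArg (MvPolynomial.coeff (expo m)) (hc'.symm.trans ((congrArg (fun u => linForm u ^ d) hab).trans he'))
    rw [MvPolynomial.coeff_sum, MvPolynomial.coeff_sum] at h1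
    simp only [MvPolynomial.coeff_C_mul] at h1
    have h2 : ∀ x : Mon t d, (if (0 : Fin 2) = 0 then c x else - e x) = c x := fun x => rfl
    have h3 : ∀ x : Mon t d, (if (1 : Fin 2) = 0 then c x else - e x) = - e x := fun x => rfl
    simp only [mul_neg, Finset.sum_neg_distrib]
    rw [← sub_eq_add_neg, sub_eq_zero]
    simpa only [mul_comm] using h1

theorem choose_ratio (d : ℕ) (δ : ℝ) (hδ : δ < 1 - 2 / 2 ^ d) :
    ∃ n₀ : ℕ, ∀ n : ℕ, n₀ ≤ n → 1 ≤ n ∧ n / 2 + 1 ≤ n ∧
      (2 : ℝ) * ((n / 2 + 1 + d - 1).choose d : ℝ) ≤ (1 - δ) * ((n + d - 1).choose d : ℝ) := by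
  have hlim : Tendsto (fun n : ℕ => 2 * (1 / 2 + (1 + d) / (n : ℝ)) ^ d) atTop
      (𝓝 (2 * (1 / 2 + 0) ^ d)) := by
    apply Tendsto.const_mul
    apply Tendsto.pow
    apply Tendsto.const_add
    exact tendsto_const_div_atTop_nhds_zero_nat _
  have hlt : 2 * (1 / 2 + 0 : ℝ) ^ d < 1 - δ := by
    have : 2 * (1 / 2 + 0 : ℝ) ^ d = 2 / 2 ^ d := by
      rw [add_zero, div_pow, one_pow]; ring
    rw [this]; linarith
  obtain ⟨N, hN⟩ := (hlim.eventually (gt_mem_nhds hlt)).exists_forall_of_atTop
  refine ⟨max N 2, fun n hn => ?_⟩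
  have hnN : N ≤ n := le_trans (le_max_left _ _) hn
  have hn2 : 2 ≤ n := le_trans (le_max_right _ _) hn
  refine ⟨by omega, by omega, ?_⟩
  have h1 := hN n hnN
  have hn0 : (0 : ℝ) < n := by exact_mod_cast (by omega : 0 < n)
  have key : ((n / 2 + 1).ascFactorial d : ℝ) ≤
      (1 / 2 + (1 + d) / (n : ℝ)) ^ d * (n.ascFactorial d : ℝ) := by
    rw [Nat.ascFactorial_eq_prod_range, Nat.ascFactorial_eq_prod_range]
    push_cast
    rw [show (1 / 2 + (1 + d) / (n : ℝ)) ^ d = ∏ _i ∈ Finset.range d, (1 / 2 + (1 + d) / (n : ℝ)) by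
      simp, ← Finset.prod_mul_distrib]
    apply Finset.prod_le_prod
    · intro i _
      positivity
    · intro i hi
      have hi' : (i : ℝ) ≤ d := by exact_mod_cast (Finset.mem_range.mp hi).le
      have hq : ((n / 2 : ℕ) : ℝ) ≤ n / 2 := Nat.cast_div_le
      have h3 : (1 + (d : ℝ)) / n * (n + i) ≥ 1 + d := by
        rw [ge_iff_le, div_mul_eq_mul_div, le_div_iff₀ hn0]
        have : (0 : ℝ) ≤ i := Nat.cast_nonneg _
        nlinarith [Nat.cast_nonneg (α := ℝ) d]
      have h4 : (1 / 2 + (1 + (d : ℝ)) / n) * (n + i) = n / 2 + i / 2 + (1 + (d : ℝ)) / n * (n + i) := by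
        ring
      rw [h4]
      have : (0 : ℝ) ≤ i := Nat.cast_nonneg _
      linarith
  have hc1 : ((n / 2 + 1 + d - 1).choose d : ℝ) = ((n / 2 + 1).ascFactorial d : ℝ) / d.factorial := by
    rw [eq_div_iff (by positivity)]
    norm_cast
    rw [Nat.ascFactorial_eq_factorial_mul_choose']
    ring
  have hc2 : ((n + d - 1).choose d : ℝ) = (n.ascFactorial d : ℝ) / d.factorial := by
    rw [eq_div_iff (by positivity)]
    norm_cast
    rw [Nat.ascFactorial_eq_factorial_mul_choose']
    ring
  rw [hc1, hc2]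
  have hA : (0 : ℝ) ≤ n.ascFactorial d := by positivity
  have hstep : 2 * ((n / 2 + 1).ascFactorial d : ℝ) ≤ (1 - δ) * (n.ascFactorial d : ℝ) := by
    calc 2 * ((n / 2 + 1).ascFactorial d : ℝ)
        ≤ 2 * ((1 / 2 + (1 + d) / (n : ℝ)) ^ d * (n.ascFactorial d : ℝ)) := by linarith
      _ = (2 * (1 / 2 + (1 + d) / (n : ℝ)) ^ d) * (n.ascFactorial d : ℝ) := by ring
      _ ≤ (1 - δ) * (n.ascFactorial d : ℝ) := mul_le_mul_of_nonneg_right h1.le hA
  rw [← mul_div_assoc, ← mul_div_assoc]
  exact div_le_div_of_nonneg_right hstep (by positivity)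

/-- The statement of Q1 fails for every `d ≥ 2` and every `0 < δ < 1 - 2 ^ (1 - d)`: for all large `n`
there is a subspace dimension `t ≤ n` which, with `s = 2` blocks, satisfies the dimension condition,
and such that for all `ρ > 0`, all matrices `P 0`, `P 1` with orthonormal columns and all choices
`V G i` of orthonormal bases of the column spans of the perturbed matrices `P i + G i` (if the
columns of `P i + G i` are linearly dependent, of a `t`-dimensional space containing them), the
smallest singular value of `M` is zero for every outcome `G` of the noise; in particular the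
probability that it is at least `(ρ / n) ^ C` is `0` for every `C`. -/
theorem result (d : ℕ) (_hd : 2 ≤ d) (δ : ℝ) (_hδ0 : 0 < δ) (hδ : δ < 1 - 2 / 2 ^ d) :
    ∃ n₀ : ℕ, ∀ n : ℕ, n₀ ≤ n → ∃ t : ℕ, 1 ≤ t ∧ t ≤ n ∧
      (2 : ℝ) * ((t + d - 1).choose d : ℝ) ≤ (1 - δ) * ((n + d - 1).choose d : ℝ) ∧
      ∀ (ρ : ℝ), 0 < ρ → ∀ (P : Fin 2 → Matrix (Fin n) (Fin t) ℝ),
        (∀ i, (P i).transpose * P i = 1) →
        ∀ V : (Fin 2 → Fin n → Fin t → ℝ) → Fin 2 → Fin t → EuclideanSpace ℝ (Fin n),
          (∀ G i, Orthonormal ℝ (V G i) ∧ ∀ j : Fin t,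
            WithLp.toLp 2 (fun k => P i k j + G i k j) ∈ Submodule.span ℝ (Set.range (V G i))) →
          (∀ G, sigmaMin (monMatrix n t 2 d (V G)) = 0) ∧
          ∀ C : ℝ, noise n t 2 ρ {G | (ρ / n) ^ C ≤ sigmaMin (monMatrix n t 2 d (V G))} = 0 := by
  obtain ⟨n₀, h⟩ := choose_ratio d δ hδ
  refine ⟨n₀, fun n hn => ?_⟩
  obtain ⟨h1, h2, h3⟩ := h n hn
  refine ⟨n / 2 + 1, by omega, h2, h3, ?_⟩
  intro ρ hρ P _ V hV
  have hz : ∀ G, sigmaMin (monMatrix n (n / 2 + 1) 2 d (V G)) = 0 := fun G =>
    monMatrix_two (by omega) _ (fun i => (hV G i).1.linearIndependent)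
  refine ⟨hz, fun C => ?_⟩
  have : {G | (ρ / n) ^ C ≤ sigmaMin (monMatrix n (n / 2 + 1) 2 d (V G))} = ∅ := by
    ext G
    simp only [Set.mem_ofPred_eq, Set.mem_empty_iff_false, iff_false, not_le, hz G]
    have : (0 : ℝ) < n := by exact_mod_cast h1
    positivity
  rw [this]
  exact measure_empty

end Pool.Agent.Results.MP_21e226_pr.SubspaceIntersection
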